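import Pool.Agent.Run7.h102.DG.G4

/-!
# MP_446dfa_ag: free groups in the Grothendieck-Teichmüller group

An element `(1, f)` of the Grothendieck-Teichmüller group `GT(ℚ)` acts on `ℚ⟨⟨x₀, x₁⟩⟩` by the automorphism `x₀ ↦ x₀`,
`x₁ ↦ f⁻¹ x₁ f`, and `f` is group-like. Let `f = 1 + ψ + (higher weight)` with `ψ ≠ 0` of weight `w`; then `ψ` is in
`𝔤𝔯𝔱₁ ⊆ Lie[x₀, x₁]`, the Lie algebra of the unipotent part `GT₁`. If `G_π = GT` (the question) then `GT₁` is a free
prounipotent group with one generator in each odd weight `≥ 3`. So the question predicts in particular: elements of `GT₁(ℚ)`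
whose leading terms have distinct odd weights `2b + 1` and are not zero in depth one (the coefficient at `x₀^(2b) x₁`, the
one of Soulé) generate a free group. For the elements of `G_π` this is known (the Lie algebra is free), for the elements
of `GT₁` it is not.

**Theorem.** Let `p` be a prime and let `b_1, …, b_n ≥ 1` be distinct such that `p` divides `binom(2 b_j, 2 b_i)` for all
`b_i < b_j`; for instance all `2 b_i` have the same digit sum in base `p`. Let `f_i = 1 + ψ_i + (weight > 2 b_i + 1)` be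
in `ℚ⟨⟨x₀, x₁⟩⟩` with `ψ_i ∈ Lie[x₀, x₁]` of weight `2 b_i + 1`, not zero in depth one. Then the automorphisms
`x₀ ↦ x₀`, `x₁ ↦ f_i⁻¹ x₁ f_i` generate a free group of rank `n`. In particular elements `(1, f_i)` of
`GT₁(ℚ)` with such leading terms generate a free group.

For example (`p = 3`) elements with leading terms of the weights `3, 5, 7, 11, 13, 19, 29, 31, 37, 55, …`, one more than a
sum of two powers of `3`; or (`p = 2`) of the weights `2b + 1` where `b` has `s` binary digits one.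

Here `ℚ⟨⟨x₀, x₁⟩⟩` is embedded in the power series ring `ℚ⟨x₀, x₁⟩[[t]]`, `∑ f_k ↦ ∑ f_k t^k`, where `f_k` is the part of
weight `k`. In part (1) we show that for every power series `F` with constant coefficient `1` there is one and only one
automorphism `t ↦ t`, `x₀ ↦ x₀`, `x₁ ↦ F⁻¹ x₁ F`. (For `F = f(t x₀, t x₁)` it is the automorphism of `f`, conjugated by
`x_i ↦ t x_i`.)

Proof of (2). Let `S_i` be the operator `g ↦ F_i α_i(g)`. Then `S_i - 1` is `t^(w_i) (s_i + O(t))` with the linearized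
operator `s_i g = ψ_i g + D_(ψ_i) g`. For a word `W ≠ 1` of the free group let `W(1 + X)` be the Magnus expansion and let
`a` be the part of smallest weight `m` of `W(1 + X) - 1`. The coefficient at `t^m` of `W(S_1, …, S_n) 1` is
`a(s_1, …, s_n) 1`. If `W(α_1, …, α_n)` is trivial then it commutes with `x₁`, so its coefficients at the words
`x₀^(k₁) x₁ ⋯ x₀^(k_d) x₁`, `k_i ≥ 1`, vanish. But modulo `p` the matrix of the coefficients of the words in the `s_i` at the
totally even words `x₀^(2 a_d) x₁ ⋯ x₀^(2 a_1) x₁`, `a_j` one of the `b_i`, is the identity.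
-/

set_option autoImplicit false

namespace Pool.Agent.Results.MP_446dfa_ag.FreeGroupsInGT

open Pool.Agent.H777R4.DM PowerSeries

attribute [local instance 100] LieRing.ofAssociativeRing

/-- `α` is the automorphism of `ℚ⟨x₀, x₁⟩[[t]]` with `t ↦ t`, `x₀ ↦ x₀`, `x₁ ↦ F⁻¹ x₁ F`. -/
structure IsSpecial (F : (PowerSeries A)ˣ) (α : PowerSeries A ≃ₐ[ℚ] PowerSeries A) : Prop where
  t : α X = X
  x0 : α (C (x 0)) = C (x 0)
  x1 : (F : PowerSeries A) * α (C (x 1)) = C (x 1) * F

/-- (1) For every `F` with constant coefficient `1` the automorphism `t ↦ t`, `x₀ ↦ x₀`, `x₁ ↦ F⁻¹ x₁ F` of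
`ℚ⟨x₀, x₁⟩[[t]]` exists and is unique.
(2) Let `p` be a prime and let `b₁, …, bₙ ≥ 1` be distinct such that for all `b_i < b_j` the prime `p` divides
`binom(2 b_j, 2 b_i)` (or the digit sum of `2 b_j` in base `p` is at most that of `2 b_i`). Let
`F_i = 1 + ψ_i t^(2 b_i + 1) + …` where `ψ_i ∈ Lie[x₀, x₁]` is homogeneous of weight `2 b_i + 1` with a nonzero coefficient at
`x₀^(2 b_i) x₁`, and let `α_i` be the automorphism `t ↦ t`, `x₀ ↦ x₀`, `x₁ ↦ F_i⁻¹ x₁ F_i`. Then `α_1, …, α_n` freely
generate a free group. -/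
theorem result :
    (∀ F : (PowerSeries A)ˣ, coeff 0 (F : PowerSeries A) = 1 → ∃! α, IsSpecial F α) ∧
    ∀ (p : ℕ) (_ : p.Prime) (n : ℕ) (b : Fin n → ℕ) (_ : Function.Injective b) (_ : ∀ i, 1 ≤ b i)
      (_ : ∀ i j, b i < b j → p ∣ (2 * b j).choose (2 * b i) ∨
        (p.digits (2 * b j)).sum ≤ (p.digits (2 * b i)).sum)
      (F : Fin n → (PowerSeries A)ˣ) (α : Fin n → (PowerSeries A ≃ₐ[ℚ] PowerSeries A))
      (_ : ∀ i, IsSpecial (F i) (α i))
      (_ : ∀ i k, k < 2 * b i + 1 → coeff k (F i : PowerSeries A) = if k = 0 then 1 else 0)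
      (_ : ∀ i, coeff (2 * b i + 1) (F i : PowerSeries A) ∈ LieX)
      (_ : ∀ i u, co (coeff (2 * b i + 1) (F i : PowerSeries A)) u ≠ 0 → u.length = 2 * b i + 1)
      (_ : ∀ i, co (coeff (2 * b i + 1) (F i : PowerSeries A))
        (List.replicate (2 * b i) 0 ++ [1]) ≠ 0),
      Function.Injective (FreeGroup.lift α) := by
  constructor
  · intro F hF
    obtain ⟨α, h1, h2, h3⟩ := Run7.h102.DG.exists_aut F hF
    exact ⟨α, ⟨h1, h2, h3⟩, fun β hβ =>
      Run7.h102.DG.unique_aut F β α hβ.t hβ.x0 hβ.x1 h1 h2 h3⟩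
  · intro p hp n b hb h1 hB F α hα hlow hL hhom hne
    refine Run7.h102.DG.grp (w := fun i => 2 * b i + 1)
      (ψ := fun i => coeff (2 * b i + 1) (F i : PowerSeries A)) (F := F)
      (fun i => ⟨by omega, hlow i, rfl, (hα i).t, (hα i).x0, (hα i).x1⟩) ?_
    intro P hP
    exact Run7.h102.DG.main' p hp n b h1 (fun i j hij => (hB i j hij).elim id fun h =>
      Run7.h102.DG.dvd_choose p hp _ _ (by omega) h) hb _ hL hhom hne P hP

end Pool.Agent.Results.MP_446dfa_ag.FreeGroupsInGT
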